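import Pool.Agent.Helper8.Kak.DefsD

/-! Module D2: Kuratowski–Ulam. -/

open MeasureTheory Set Topology Filter
open scoped symmDiff ENNReal ProbabilityTheory

namespace KakC

/-- Module D2 (a). Kuratowski–Ulam. -/
theorem ku {X G : Type*} [TopologicalSpace X] [TopologicalSpace G] [SecondCountableTopology G]
    {P : X × G → Prop} (hP : ∀ᶠ p in residual (X × G), P p) :
    ∀ᶠ x in residual X, ∀ᶠ g in residual G, P (x, g) := by
  have hP' : {p | P p} ∈ residual (X × G) := hP
  obtain ⟨S, hSo, hSd, hSc, hS⟩ := mem_residual_iff.1 hP'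
  have h1 : ∀ O ∈ S, ∀ᶠ x in residual X, ∀ᶠ g in residual G, (x, g) ∈ O := by
    intro O hO
    have hOo := hSo O hO
    have hOd := hSd O hO
    have h2 : ∀ V ∈ TopologicalSpace.countableBasis G, ∀ᶠ x in residual X, ∃ g ∈ V, (x, g) ∈ O := by
      intro V hV
      have hVo : IsOpen V := TopologicalSpace.isOpen_of_mem_countableBasis hV
      have hVn : V.Nonempty := TopologicalSpace.nonempty_of_mem_countableBasis hV
      have h3 : {x : X | ∃ g ∈ V, (x, g) ∈ O} = Prod.fst '' (O ∩ (univ ×ˢ V)) := by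
        ext x
        constructor
        · rintro ⟨g, hg, hx⟩
          exact ⟨(x, g), ⟨hx, mem_univ _, hg⟩, rfl⟩
        · rintro ⟨⟨y, g⟩, ⟨hy, -, hg⟩, rfl⟩
          exact ⟨g, hg, hy⟩
      refine residual_of_dense_open (s := {x : X | ∃ g ∈ V, (x, g) ∈ O}) ?_ ?_
      · rw [h3]
        exact isOpenMap_fst _ (hOo.inter (isOpen_univ.prod hVo))
      · rw [dense_iff_inter_open]
        intro W hW hWn
        obtain ⟨⟨y, g⟩, ⟨hy, hg⟩, hyO⟩ := hOd.inter_open_nonempty (W ×ˢ V) (hW.prod hVo) (hWn.prod hVn)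
        exact ⟨y, hy, g, hg, hyO⟩
    have h4 : ∀ᶠ x in residual X, ∀ V ∈ TopologicalSpace.countableBasis G, ∃ g ∈ V, (x, g) ∈ O :=
      (eventually_countable_ball (TopologicalSpace.countable_countableBasis G)).2 h2
    filter_upwards [h4] with x hx
    refine residual_of_dense_open (s := {g : G | (x, g) ∈ O}) ?_ ?_
    · exact hOo.preimage (by fun_prop : Continuous fun g : G => (x, g))
    · rw [dense_iff_inter_open]
      intro W hW hWn
      obtain ⟨g, hg⟩ := hWn
      obtain ⟨V, hV, hgV, hVW⟩ :=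
        (TopologicalSpace.isBasis_countableBasis G).exists_subset_of_mem_open hg hW
      obtain ⟨g', hg', hO'⟩ := hx V hV
      exact ⟨g', hVW hg', hO'⟩
  have h5 : ∀ᶠ x in residual X, ∀ O ∈ S, ∀ᶠ g in residual G, (x, g) ∈ O :=
    (eventually_countable_ball hSc).2 h1
  filter_upwards [h5] with x hx
  have h6 : ∀ᶠ g in residual G, ∀ O ∈ S, (x, g) ∈ O := (eventually_countable_ball hSc).2 hx
  filter_upwards [h6] with g hg
  exact hS (mem_sInter.2 hg)

/-- Module D2 (b). -/
theorem ku_baire {X G : Type*} [TopologicalSpace X] [TopologicalSpace G]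
    [SecondCountableTopology G] [BaireSpace G] {S : Set (X × G)} (hS : BaireMeasurableSet S)
    {V : Set G} (hV : IsOpen V) :
    BaireMeasurableSet {x : X | ∀ᶠ g in residual G, g ∈ V → (x, g) ∈ S} := by
  obtain ⟨O, hO, hSO⟩ := hS.residualEq_isOpen
  have h1 : ∀ᶠ x in residual X, ∀ᶠ g in residual G, ((x, g) ∈ S ↔ (x, g) ∈ O) :=
    ku (P := fun p => p ∈ S ↔ p ∈ O) (eventuallyEq_set.1 hSO)
  have h2 : {x : X | ∀ᶠ g in residual G, g ∈ V → (x, g) ∈ O}
      = ⋂ W ∈ {W ∈ TopologicalSpace.countableBasis G | W ⊆ V}, {x : X | ∃ g ∈ W, (x, g) ∈ O} := by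
    ext x
    simp only [mem_iInter, mem_ofPred_eq]
    constructor
    · rintro hx W ⟨hW, hWV⟩
      have hd : Dense {g : G | g ∈ V → (x, g) ∈ O} := dense_of_mem_residual hx
      obtain ⟨g, hg, hgO⟩ := hd.inter_open_nonempty W
        (TopologicalSpace.isOpen_of_mem_countableBasis hW)
        (TopologicalSpace.nonempty_of_mem_countableBasis hW)
      exact ⟨g, hg, hgO (hWV hg)⟩
    · intro hx
      have h3 : ((V ∩ {g : G | (x, g) ∈ O}) ∪ (closure V)ᶜ) ∈ residual G := by
        refine residual_of_dense_open ?_ ?_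
        · refine (hV.inter (hO.preimage (by fun_prop : Continuous fun g : G => (x, g)))).union ?_
          exact isClosed_closure.isOpen_compl
        · rw [dense_iff_inter_open]
          intro W hW hWn
          by_cases hWV : (W ∩ V).Nonempty
          · obtain ⟨g, hg⟩ := hWV
            obtain ⟨W', hW', hgW', hsub⟩ :=
              (TopologicalSpace.isBasis_countableBasis G).exists_subset_of_mem_open hg (hW.inter hV)
            obtain ⟨g', hg', hO'⟩ := hx W' ⟨hW', fun y hy => (hsub hy).2⟩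
            exact ⟨g', (hsub hg').1, Or.inl ⟨(hsub hg').2, hO'⟩⟩
          · obtain ⟨g, hg⟩ := hWn
            refine ⟨g, hg, Or.inr fun hgc => hWV ?_⟩
            exact (mem_closure_iff.1 hgc) W hW hg
      filter_upwards [h3] with g hg hgV
      rcases hg with hg | hg
      · exact hg.2
      · exact absurd (subset_closure hgV) hg
  have h4 : BaireMeasurableSet {x : X | ∀ᶠ g in residual G, g ∈ V → (x, g) ∈ O} := by
    rw [h2]
    refine BaireMeasurableSet.biInter
      ((TopologicalSpace.countable_countableBasis G).mono fun W hW => hW.1) fun W hW => ?_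
    refine IsOpen.baireMeasurableSet ?_
    have h3 : {x : X | ∃ g ∈ W, (x, g) ∈ O} = Prod.fst '' (O ∩ (univ ×ˢ W)) := by
      ext x
      constructor
      · rintro ⟨g, hg, hx⟩
        exact ⟨(x, g), ⟨hx, mem_univ _, hg⟩, rfl⟩
      · rintro ⟨⟨y, g⟩, ⟨hy, -, hg⟩, rfl⟩
        exact ⟨g, hg, hy⟩
    rw [h3]
    exact isOpenMap_fst _ (hO.inter (isOpen_univ.prod
      (TopologicalSpace.isOpen_of_mem_countableBasis hW.1)))
  refine h4.congr (eventuallyEq_set.2 ?_)
  filter_upwards [h1] with x hx
  constructor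
  · intro h
    have h' : ∀ᶠ g in residual G, g ∈ V → (x, g) ∈ O := h
    change ∀ᶠ g in residual G, g ∈ V → (x, g) ∈ S
    filter_upwards [hx, h'] with g hg hg' hgV
    exact hg.2 (hg' hgV)
  · intro h
    have h' : ∀ᶠ g in residual G, g ∈ V → (x, g) ∈ S := h
    change ∀ᶠ g in residual G, g ∈ V → (x, g) ∈ O
    filter_upwards [hx, h'] with g hg hg' hgV
    exact hg.1 (hg' hgV)

/-- Module D2 (c). A set with the Baire property that is not comeager is meager in some nonempty
open set. -/
theorem exists_open_of_not_residual {X : Type*} [TopologicalSpace X] {S : Set X}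
    (hS : BaireMeasurableSet S) (h : S ∉ residual X) :
    ∃ U : Set X, IsOpen U ∧ U.Nonempty ∧ ∀ᶠ x in residual X, x ∈ U → x ∉ S := by
  obtain ⟨O, hO, hSO⟩ := hS.residualEq_isOpen
  have hSO' := eventuallyEq_set.1 hSO
  refine ⟨(closure O)ᶜ, isClosed_closure.isOpen_compl, ?_, ?_⟩
  · by_contra hne
    apply h
    have hd : Dense O := by
      rw [not_nonempty_iff_eq_empty, compl_empty_iff] at hne
      exact dense_iff_closure_eq.2 hne
    filter_upwards [hSO', residual_of_dense_open hO hd] with x hx hxO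
    exact hx.2 hxO
  · filter_upwards [hSO'] with x hx hxU hxS
    exact hxU (subset_closure (hx.1 hxS))

end KakC
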