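import Pool.Agent.Helper8.Kak.DefsD

/-! Module D7: chains of small steps. -/

open MeasureTheory Set Topology Filter
open scoped symmDiff ENNReal ProbabilityTheory

namespace KakC

private theorem D7_coe_continuous : Continuous (fun g : Gl => (g : ℕ → ℝ)) := by
  refine continuous_pi fun i => ?_
  have h1 : LipschitzWith 1 (fun g : Gl => (g : ℕ → ℝ) i) := by
    refine LipschitzWith.of_dist_le_mul fun g g' => ?_
    rw [NNReal.coe_one, one_mul, dist_eq_norm, dist_eq_norm]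
    have := lp.norm_apply_le_norm (one_ne_zero) (g - g') i
    simpa using this
  exact h1.continuous

private theorem D7_dense (x : ℕ → ℝ) {U : Set (ℕ → ℝ)} (hU : IsOpen U) (hne : U.Nonempty) :
    ∃ g : Gl, x + (g : ℕ → ℝ) ∈ U := by
  classical
  obtain ⟨y, hy⟩ := hne
  obtain ⟨I, u, hu, hsub⟩ := isOpen_pi_iff.1 hU y hy
  refine ⟨∑ i ∈ I, lp.single 1 i (y i - x i), hsub ?_⟩
  intro j hj
  have h1 : ((∑ i ∈ I, lp.single 1 i (y i - x i) : Gl) : ℕ → ℝ) j = y j - x j := by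
    rw [lp.coeFn_sum, Finset.sum_apply, Finset.sum_eq_single j]
    · simp
    · intro b _ hb
      rw [lp.single_apply_ne]
      exact hb.symm
    · intro hj'
      exact absurd hj hj'
  rw [Pi.add_apply, h1, add_sub_cancel]
  exact (hu j hj).2

/-- transitivity -/
private theorem D7_trans {Z : Type*} [MulAction (Equiv.Perm ℕ) Z] {f : (ℕ → ℝ) → Z} {n : ℕ}
    {x y z : ℕ → ℝ} (h1 : RS f n x y) (h2 : RS f n y z) : RS f n x z := by
  obtain ⟨w, hw, h1⟩ := h1
  obtain ⟨v, hv, h2⟩ := h2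
  exact ⟨v * w, (Stab n).mul_mem hv hw, by rw [mul_smul, h1, h2]⟩

section
variable {Z : Type*} [MeasurableSpace Z] [StandardBorelSpace Z] [MulAction (Equiv.Perm ℕ) Z]

/-- Module D7. -/
theorem chain {f : (ℕ → ℝ) → Z} (n : ℕ) {C U : Set (ℕ → ℝ)} (hU : IsOpen U)
    (hUc : Convex ℝ U) {ρ : ℝ} (hρ : 0 < ρ)
    (hC : ∀ x ∈ C, ∀ᶠ (g : Gl) in residual Gl, x + (g : ℕ → ℝ) ∈ C)
    (hR : ∀ x ∈ C, x ∈ U → ∀ᶠ (g : Gl) in residual Gl, ‖g‖ < ρ → RS f n x (x + g))
    {x : ℕ → ℝ} (hx : x ∈ C) (hxU : x ∈ U) {U' : Set (ℕ → ℝ)} (hU' : IsOpen U')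
    (hne : (U' ∩ U).Nonempty) :
    ∃ g : Gl, x + (g : ℕ → ℝ) ∈ C ∧ x + (g : ℕ → ℝ) ∈ U' ∧ x + (g : ℕ → ℝ) ∈ U ∧
      RS f n x (x + g) := by
  have key : ∀ r : ℕ, ∀ x ∈ C, x ∈ U → ∀ v : Gl, ‖v‖ < r * ρ → x + (v : ℕ → ℝ) ∈ U' ∩ U →
      ∃ g : Gl, x + (g : ℕ → ℝ) ∈ C ∧ x + (g : ℕ → ℝ) ∈ U' ∧ x + (g : ℕ → ℝ) ∈ U ∧
      RS f n x (x + g) := by
    intro r
    induction r with
    | zero =>
      intro x _ _ v hv _
      exfalso
      have := norm_nonneg v
      simp only [Nat.cast_zero, zero_mul] at hv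
      linarith
    | succ r ih =>
      intro x hx hxU v hv hxv
      have hcont : Continuous fun g : Gl => x + (g : ℕ → ℝ) :=
        continuous_const.add D7_coe_continuous
      have hres : {g : Gl | x + (g : ℕ → ℝ) ∈ C ∧ (‖g‖ < ρ → RS f n x (x + g))} ∈ residual Gl :=
        (hC x hx).and (hR x hx hxU)
      have hd := dense_of_mem_residual hres
      by_cases hr : r = 0
      · subst hr
        have ho : IsOpen ({g : Gl | ‖g‖ < ρ} ∩ (fun g : Gl => x + (g : ℕ → ℝ)) ⁻¹' (U' ∩ U)) :=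
          (isOpen_lt continuous_norm continuous_const).inter ((hU'.inter hU).preimage hcont)
        obtain ⟨g, ⟨hg1, hg2⟩, hg3, hg4⟩ := hd.inter_open_nonempty _ ho
          ⟨v, by simpa using hv, hxv⟩
        exact ⟨g, hg3, hg2.1, hg2.2, hg4 hg1⟩
      · have hr' : (0 : ℝ) < r := by exact_mod_cast Nat.pos_of_ne_zero hr
        have hr1 : (0 : ℝ) < (r : ℝ) + 1 := by linarith
        have ho : IsOpen (({g : Gl | ‖g‖ < ρ} ∩ {g : Gl | ‖v - g‖ < r * ρ}) ∩
            (fun g : Gl => x + (g : ℕ → ℝ)) ⁻¹' U) :=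
          ((isOpen_lt continuous_norm continuous_const).inter
            (isOpen_lt (continuous_const.sub continuous_id).norm continuous_const)).inter
            (hU.preimage hcont)
        have hv' : ‖v‖ < ((r : ℝ) + 1) * ρ := by
          have := hv
          push_cast at this
          exact this
        have hnonempty : (({g : Gl | ‖g‖ < ρ} ∩ {g : Gl | ‖v - g‖ < r * ρ}) ∩
            (fun g : Gl => x + (g : ℕ → ℝ)) ⁻¹' U).Nonempty := by
          refine ⟨((r : ℝ) + 1)⁻¹ • v, ⟨?_, ?_⟩, ?_⟩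
          · change ‖((r : ℝ) + 1)⁻¹ • v‖ < ρ
            rw [norm_smul, Real.norm_of_nonneg (by positivity), inv_mul_lt_iff₀ hr1]
            exact hv'
          · change ‖v - ((r : ℝ) + 1)⁻¹ • v‖ < r * ρ
            have h1 : v - ((r : ℝ) + 1)⁻¹ • v = (r * ((r : ℝ) + 1)⁻¹) • v := by
              have : (r * ((r : ℝ) + 1)⁻¹) = 1 - ((r : ℝ) + 1)⁻¹ := by field_simp; ring
              rw [this, sub_smul, one_smul]
            rw [h1, norm_smul, Real.norm_of_nonneg (by positivity), mul_assoc]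
            refine mul_lt_mul_of_pos_left ?_ hr'
            rw [inv_mul_lt_iff₀ hr1]
            exact hv'
          · change x + ((((r : ℝ) + 1)⁻¹ • v : Gl) : ℕ → ℝ) ∈ U
            have h1 : x + ((((r : ℝ) + 1)⁻¹ • v : Gl) : ℕ → ℝ)
                = (1 - ((r : ℝ) + 1)⁻¹) • x + ((r : ℝ) + 1)⁻¹ • (x + (v : ℕ → ℝ)) := by
              rw [lp.coeFn_smul, smul_add, sub_smul, one_smul]
              abel
            rw [h1]
            refine hUc hxU hxv.2 ?_ (by positivity) (by ring)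
            rw [sub_nonneg]
            exact inv_le_one_of_one_le₀ (by linarith)
        obtain ⟨g, ⟨⟨hg1, hg2⟩, hg3⟩, hg4, hg5⟩ := hd.inter_open_nonempty _ ho hnonempty
        have hg6 : x + (g : ℕ → ℝ) + ((v - g : Gl) : ℕ → ℝ) = x + (v : ℕ → ℝ) := by
          rw [lp.coeFn_sub]; abel
        obtain ⟨g', h1, h2, h3, h4⟩ := ih (x + (g : ℕ → ℝ)) hg4 hg3 (v - g) hg2
          (by rw [hg6]; exact hxv)
        have hg7 : x + ((g + g' : Gl) : ℕ → ℝ) = x + (g : ℕ → ℝ) + (g' : ℕ → ℝ) := by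
          rw [lp.coeFn_add]; abel
        refine ⟨g + g', ?_, ?_, ?_, ?_⟩
        · rw [hg7]; exact h1
        · rw [hg7]; exact h2
        · rw [hg7]; exact h3
        · rw [hg7]; exact D7_trans (hg5 hg1) h4
  obtain ⟨v, hv⟩ := D7_dense x (hU'.inter hU) hne
  obtain ⟨r, hr⟩ := exists_nat_gt (‖v‖ / ρ)
  exact key r x hx hxU v ((div_lt_iff₀ hρ).1 hr) hv

end

end KakC
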